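import Mathlib
import Pool.Agent.Helper59.RE.ArcCount

/-!
# Characteristic function of a random series of digits
-/

set_option autoImplicit false

namespace Pool.Agent.Helper82.RB

open Finset MeasureTheory ProbabilityTheory Filter Topology
open Pool.Agent.Helper59.RE (e)

theorem e_def (x : ℝ) : e x = Complex.exp ((2 * Real.pi * x : ℝ) * Complex.I) := by
  unfold e
  congr 1
  push_cast
  ring

theorem norm_e' (x : ℝ) : ‖e x‖ = 1 := by
  rw [e_def]
  exact Complex.norm_exp_ofReal_mul_I _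

theorem e_add' (x y : ℝ) : e (x + y) = e x * e y := by
  rw [e_def, e_def, e_def, ← Complex.exp_add]
  congr 1
  push_cast
  ring

theorem continuous_e' : Continuous e := by
  have : e = fun x : ℝ => Complex.exp ((2 * Real.pi * x : ℝ) * Complex.I) := funext e_def
  rw [this]
  fun_prop

theorem e_sum' (S : Finset ℕ) (f : ℕ → ℝ) : e (∑ i ∈ S, f i) = ∏ i ∈ S, e (f i) := by
  classical
  induction S using Finset.induction_on with
  | empty =>
    rw [sum_empty, prod_empty, e_def]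
    simp
  | insert i S hi ih => rw [sum_insert hi, prod_insert hi, e_add', ih]

theorem cos_le (u : ℝ) (n : ℤ) (h : |u - n| ≤ 1 / 2) : Real.cos (2 * Real.pi * u) ≤ 1 - 8 * (u - n) ^ 2 := by
  have hpi := Real.pi_pos
  have h1 : Real.cos (2 * Real.pi * u) = Real.cos (2 * Real.pi * (u - n)) := by
    rw [← Real.cos_sub_int_mul_two_pi (2 * Real.pi * u) n]
    congr 1
    ring
  rw [h1]
  have h2 : |2 * Real.pi * (u - n)| ≤ Real.pi := by
    rw [abs_mul, abs_of_pos (by positivity)]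
    nlinarith
  refine (Real.cos_le_one_sub_mul_cos_sq h2).trans (le_of_eq ?_)
  field_simp
  ring

/-- two integers cannot both be near the integers -/
theorem far {C : ℕ} {s θ δ : ℝ} (hδ : δ ≤ |s * ((2 * C).factorial : ℝ) - round (s * ((2 * C).factorial : ℝ))|) (hδ0 : 0 < δ)
    {i j : ℤ} (hi : |i| ≤ C) (hj : |j| ≤ C) (hij : i ≠ j)
    (h1 : |s * i + θ - round (s * i + θ)| < δ / (2 * C).factorial / 2) :
    δ / (2 * C).factorial / 2 ≤ |s * j + θ - round (s * j + θ)| := by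
  by_contra h2
  push Not at h2
  set n₁ := round (s * i + θ)
  set n₂ := round (s * j + θ)
  have hf : (0 : ℝ) < ((2 * C).factorial : ℝ) := by exact_mod_cast Nat.factorial_pos _
  have h3 : |s * ((i - j : ℤ) : ℝ) - ((n₁ - n₂ : ℤ) : ℝ)| < δ / (2 * C).factorial := by
    have h4 : s * ((i - j : ℤ) : ℝ) - ((n₁ - n₂ : ℤ) : ℝ) = (s * i + θ - n₁) - (s * j + θ - n₂) := by
      push_cast
      ring
    rw [h4]
    refine (abs_sub _ _).trans_lt ?_
    linarith
  have hd : (i - j).natAbs ∣ (2 * C).factorial := by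
    apply Nat.dvd_factorial
    · exact Int.natAbs_pos.2 (sub_ne_zero.2 hij)
    · have h5 : |i - j| ≤ 2 * C := (abs_sub _ _).trans (by linarith)
      have : ((i - j).natAbs : ℤ) ≤ 2 * C := by rwa [Int.natCast_natAbs]
      exact_mod_cast this
  have hd' : (i - j) ∣ ((2 * C).factorial : ℤ) := by
    rw [← Int.natAbs_dvd_natAbs]
    simpa using hd
  obtain ⟨m, hm⟩ := hd'
  have hmr : ((2 * C).factorial : ℝ) = ((i - j : ℤ) : ℝ) * m := by exact_mod_cast hm
  have h1ij : (1 : ℝ) ≤ |((i - j : ℤ) : ℝ)| := by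
    have : 1 ≤ |i - j| := Int.one_le_abs (sub_ne_zero.2 hij)
    exact_mod_cast this
  have hmle : |(m : ℝ)| ≤ (2 * C).factorial := by
    have h6 : |((2 * C).factorial : ℝ)| = |((i - j : ℤ) : ℝ)| * |(m : ℝ)| := by rw [hmr, abs_mul]
    rw [abs_of_pos hf] at h6
    rw [h6]
    nlinarith [abs_nonneg (m : ℝ)]
  have hm0 : 0 < |(m : ℝ)| := by
    rw [abs_pos]
    intro h0
    rw [h0, mul_zero] at hmr
    exact hf.ne' hmr
  have h7 : |s * ((2 * C).factorial : ℝ) - ((m * (n₁ - n₂) : ℤ) : ℝ)| < δ := by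
    have h8 : s * ((2 * C).factorial : ℝ) - ((m * (n₁ - n₂) : ℤ) : ℝ) = m * (s * ((i - j : ℤ) : ℝ) - ((n₁ - n₂ : ℤ) : ℝ)) := by
      rw [hmr]
      push_cast
      ring
    rw [h8, abs_mul]
    calc |(m : ℝ)| * |s * ((i - j : ℤ) : ℝ) - ((n₁ - n₂ : ℤ) : ℝ)| < |(m : ℝ)| * (δ / (2 * C).factorial) :=
          mul_lt_mul_of_pos_left h3 hm0
      _ ≤ (2 * C).factorial * (δ / (2 * C).factorial) := mul_le_mul_of_nonneg_right hmle (by positivity)
      _ = δ := by field_simp
  have h9 := round_le (s * ((2 * C).factorial : ℝ)) (m * (n₁ - n₂))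
  linarith

/-- one factor -/
theorem phi_bound {Ω : Type*} [MeasurableSpace Ω] (μ : Measure Ω) [IsProbabilityMeasure μ]
    (X : Ω → ℤ) (hX : Measurable X) (C : ℕ) (hC : ∀ᵐ ω ∂μ, |X ω| ≤ C) {p : ℝ}
    (hp : ∀ j : ℤ, μ.real {ω | X ω = j} ≤ 1 - p) {s δ : ℝ} (hδ0 : 0 < δ)
    (hδ : δ ≤ |s * ((2 * C).factorial : ℝ) - round (s * ((2 * C).factorial : ℝ))|) :
    ‖∫ ω, e (s * X ω) ∂μ‖ ≤ Real.exp (-(2 * (δ / (2 * C).factorial) ^ 2 * p)) := by
  have hf : (0 : ℝ) < ((2 * C).factorial : ℝ) := by exact_mod_cast Nat.factorial_pos _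
  set η := δ / (2 * C).factorial with hη
  have hη0 : 0 < η := by positivity
  have hXr : Measurable fun ω => (X ω : ℝ) := measurable_from_top.comp hX
  set z := ∫ ω, e (s * X ω) ∂μ with hz
  obtain ⟨θ, hθ⟩ : ∃ θ : ℝ, e θ * z = ‖z‖ := by
    refine ⟨-Complex.arg z / (2 * Real.pi), ?_⟩
    have h1 := Complex.norm_mul_exp_arg_mul_I z
    have hpi := Real.pi_ne_zero
    have h2 : e (-Complex.arg z / (2 * Real.pi)) = Complex.exp (-(Complex.arg z * Complex.I)) := by
      rw [e_def]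
      congr 1
      rw [show 2 * Real.pi * (-Complex.arg z / (2 * Real.pi)) = -Complex.arg z by field_simp]
      push_cast
      ring
    rw [h2]
    nth_rewrite 2 [← h1]
    rw [mul_left_comm, ← Complex.exp_add]
    simp
  have hint : Integrable (fun ω => e (s * X ω + θ)) μ := by
    apply Integrable.of_bound (C := 1)
    · exact (continuous_e'.measurable.comp ((hXr.const_mul s).add_const θ)).aestronglyMeasurable
    · filter_upwards with ω
      rw [norm_e']
  have h1 : ‖z‖ = ∫ ω, Real.cos (2 * Real.pi * (s * X ω + θ)) ∂μ := by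
    have h2 : ((‖z‖ : ℝ) : ℂ) = ∫ ω, e (s * X ω + θ) ∂μ := by
      rw [← hθ, hz, ← integral_const_mul]
      congr 1
      funext ω
      rw [e_add', mul_comm]
    have h3 : ‖z‖ = (∫ ω, e (s * X ω + θ) ∂μ).re := by
      rw [← h2, Complex.ofReal_re]
    rw [h3]
    have h4 := (Complex.reCLM.integral_comp_comm hint).symm
    simp only [Complex.reCLM_apply] at h4
    rw [h4]
    congr 1
    funext ω
    rw [e_def, Complex.exp_ofReal_mul_I_re]
  rw [h1]
  -- the exceptional value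
  obtain ⟨j₀, hj₀⟩ : ∃ j₀ : ℤ, ∀ j : ℤ, |j| ≤ C → j ≠ j₀ → η / 2 ≤ |s * j + θ - round (s * j + θ)| := by
    by_cases h : ∃ i : ℤ, |i| ≤ C ∧ |s * i + θ - round (s * i + θ)| < η / 2
    · obtain ⟨i, hi, hi2⟩ := h
      exact ⟨i, fun j hj hji => far hδ hδ0 hi hj hji.symm hi2⟩
    · push Not at h
      exact ⟨0, fun j hj _ => h j hj⟩
  have h2 : ∀ᵐ ω ∂μ, Real.cos (2 * Real.pi * (s * X ω + θ)) ≤ 1 - ({ω | X ω ≠ j₀}.indicator (fun _ => 2 * η ^ 2) ω) := by
    filter_upwards [hC] with ω hω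
    by_cases hX0 : X ω = j₀
    · rw [Set.indicator_of_notMem (by simpa using hX0), sub_zero]
      exact Real.cos_le_one _
    · rw [Set.indicator_of_mem (by simpa using hX0)]
      have h3 := hj₀ (X ω) hω hX0
      have h4 := cos_le (s * X ω + θ) (round (s * X ω + θ)) (abs_sub_round _)
      refine h4.trans ?_
      have h5 : (η / 2) ^ 2 ≤ (s * X ω + θ - round (s * X ω + θ)) ^ 2 := by
        rw [← sq_abs (s * X ω + θ - round (s * X ω + θ))]
        exact pow_le_pow_left₀ (by positivity) h3 2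
      nlinarith
  have hms : MeasurableSet {ω | X ω ≠ j₀} := by
    have : MeasurableSet {ω | X ω = j₀} := hX (measurableSet_singleton j₀)
    exact this.compl
  have hcosint : Integrable (fun ω => Real.cos (2 * Real.pi * (s * X ω + θ))) μ := by
    apply Integrable.of_bound (C := 1)
    · exact (Real.continuous_cos.measurable.comp (((hXr.const_mul s).add_const θ).const_mul _)).aestronglyMeasurable
    · filter_upwards with ω
      exact Real.abs_cos_le_one _
  have h3 : ∫ ω, Real.cos (2 * Real.pi * (s * X ω + θ)) ∂μ ≤ 1 - 2 * η ^ 2 * μ.real {ω | X ω ≠ j₀} := by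
    refine (integral_mono_ae hcosint ?_ h2).trans (le_of_eq ?_)
    · exact (integrable_const _).sub ((integrable_const _).indicator hms)
    · rw [integral_sub (integrable_const _) ((integrable_const _).indicator hms), integral_indicator_const _ hms]
      simp [mul_comm]
  have h4 : p ≤ μ.real {ω | X ω ≠ j₀} := by
    have h5 : μ.real {ω | X ω ≠ j₀} = 1 - μ.real {ω | X ω = j₀} := by
      have h6 : MeasurableSet {ω | X ω = j₀} := hX (measurableSet_singleton j₀)
      exact probReal_compl_eq_one_sub h6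
    rw [h5]
    linarith [hp j₀]
  refine h3.trans ?_
  have h5 := Real.one_sub_le_exp_neg (2 * η ^ 2 * p)
  refine le_trans ?_ h5
  have : 0 ≤ 2 * η ^ 2 := by positivity
  nlinarith

/-- Block CHF. -/
theorem chf_bound {Ω : Type*} [MeasurableSpace Ω] (μ : Measure Ω) [IsProbabilityMeasure μ]
    (ξ : ℕ → Ω → ℤ) (hξ : ∀ k, Measurable (ξ k)) (hind : iIndepFun ξ μ) (C : ℕ)
    (hC : ∀ k, ∀ᵐ ω ∂μ, |ξ k ω| ≤ C) (b : ℕ) (hb : 2 ≤ b) (p : ℕ → ℝ)
    (hp : ∀ k (j : ℤ), μ.real {ω | ξ k ω = j} ≤ 1 - p k) :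
    ∃ κ : ℝ, 0 < κ ∧ ∀ (T : ℝ) (F : Finset ℕ), (∀ k ∈ F, 0 ≤ p k) →
      (∀ k ∈ F, 1 / (2 * ((b : ℝ) + 1)) ≤
        |T * ((2 * C).factorial : ℝ) / (b : ℝ) ^ k - round (T * ((2 * C).factorial : ℝ) / (b : ℝ) ^ k)|) →
      ‖∫ ω, e (T * ∑' k : ℕ, (ξ k ω : ℝ) / (b : ℝ) ^ k) ∂μ‖ ≤ Real.exp (-(κ * ∑ k ∈ F, p k)) := by
  set δ : ℝ := 1 / (2 * ((b : ℝ) + 1)) with hδ
  have hδ0 : 0 < δ := by positivity
  have hf : (0 : ℝ) < ((2 * C).factorial : ℝ) := by exact_mod_cast Nat.factorial_pos _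
  refine ⟨2 * (δ / (2 * C).factorial) ^ 2, by positivity, ?_⟩
  intro T F _ hT
  have hξr : ∀ k, Measurable fun ω => (ξ k ω : ℝ) := fun k => measurable_from_top.comp (hξ k)
  -- partial sums
  have hpart : ∀ K : ℕ, F ⊆ range K → ‖∫ ω, e (T * ∑ k ∈ range K, (ξ k ω : ℝ) / (b : ℝ) ^ k) ∂μ‖ ≤
      Real.exp (-(2 * (δ / (2 * C).factorial) ^ 2 * ∑ k ∈ F, p k)) := by
    intro K hFK
    have h1 : ∫ ω, e (T * ∑ k ∈ range K, (ξ k ω : ℝ) / (b : ℝ) ^ k) ∂μ =
        ∏ k ∈ range K, ∫ ω, e (T / (b : ℝ) ^ k * (ξ k ω : ℝ)) ∂μ := by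
      have h2 : ∀ ω, e (T * ∑ k ∈ range K, (ξ k ω : ℝ) / (b : ℝ) ^ k) =
          ∏ i : Fin K, (fun (i : Fin K) (z : ℤ) => e (T / (b : ℝ) ^ (i : ℕ) * (z : ℝ))) i (ξ i ω) := by
        intro ω
        rw [mul_sum, e_sum', ← Fin.prod_univ_eq_prod_range (fun k => e (T * ((ξ k ω : ℝ) / (b : ℝ) ^ k))) K]
        refine prod_congr rfl fun i _ => ?_
        congr 1
        ring
      have hind' : iIndepFun (fun i : Fin K => ξ i) μ := hind.precomp Fin.val_injective
      have h4 := hind'.integral_fun_prod_comp (f := fun (i : Fin K) (z : ℤ) => e (T / (b : ℝ) ^ (i : ℕ) * (z : ℝ)))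
        (fun i => (hξ i).aemeasurable)
        (fun i => (measurable_from_top (f := fun z : ℤ => e (T / (b : ℝ) ^ (i : ℕ) * (z : ℝ)))).aestronglyMeasurable)
      rw [integral_congr_ae (Eventually.of_forall h2), h4]
      exact Fin.prod_univ_eq_prod_range (fun k => ∫ ω, e (T / (b : ℝ) ^ k * (ξ k ω : ℝ)) ∂μ) K
    rw [h1, norm_prod]
    have h3 : ∏ k ∈ range K, ‖∫ ω, e (T / (b : ℝ) ^ k * (ξ k ω : ℝ)) ∂μ‖ ≤
        ∏ k ∈ F, ‖∫ ω, e (T / (b : ℝ) ^ k * (ξ k ω : ℝ)) ∂μ‖ := by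
      apply prod_le_prod_of_subset_of_le_one hFK
      · intro k _
        exact norm_nonneg _
      · intro k _ _
        refine (norm_integral_le_of_norm_le_const (C := 1) ?_).trans (by simp)
        filter_upwards with ω
        rw [norm_e']
    refine h3.trans ?_
    rw [mul_sum, ← sum_neg_distrib, Real.exp_sum]
    refine prod_le_prod (fun k _ => norm_nonneg _) fun k hk => ?_
    refine phi_bound μ (ξ k) (hξ k) C (hC k) (hp k) hδ0 ?_
    have := hT k hk
    rw [show T / (b : ℝ) ^ k * ((2 * C).factorial : ℝ) = T * ((2 * C).factorial : ℝ) / (b : ℝ) ^ k by ring]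
    exact this
  -- passage to the limit
  have hlim : Tendsto (fun K : ℕ => ∫ ω, e (T * ∑ k ∈ range K, (ξ k ω : ℝ) / (b : ℝ) ^ k) ∂μ) atTop
      (𝓝 (∫ ω, e (T * ∑' k : ℕ, (ξ k ω : ℝ) / (b : ℝ) ^ k) ∂μ)) := by
    refine tendsto_integral_of_dominated_convergence (fun _ => 1) (fun K => ?_) (integrable_const _) (fun K => ?_) ?_
    · refine (continuous_e'.measurable.comp ?_).aestronglyMeasurable
      refine Measurable.const_mul ?_ T
      exact Finset.measurable_fun_sum _ fun k _ => (hξr k).div_const _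
    · filter_upwards with ω
      rw [norm_e']
    · have hall : ∀ᵐ ω ∂μ, ∀ k, |ξ k ω| ≤ C := ae_all_iff.2 hC
      filter_upwards [hall] with ω hω
      have hb1 : (1 : ℝ) < b := by exact_mod_cast hb
      have hsum : Summable fun k : ℕ => (ξ k ω : ℝ) / (b : ℝ) ^ k := by
        refine Summable.of_norm_bounded (g := fun k : ℕ => (C : ℝ) * (1 / (b : ℝ)) ^ k) ?_ fun k => ?_
        · refine (summable_geometric_of_lt_one (by positivity) ?_).mul_left _
          rw [div_lt_one (by linarith)]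
          exact hb1
        · rw [Real.norm_eq_abs, abs_div, abs_of_pos (by positivity : (0 : ℝ) < (b : ℝ) ^ k), div_eq_mul_inv, one_div, inv_pow]
          apply mul_le_mul_of_nonneg_right _ (by positivity)
          have := hω k
          exact_mod_cast this
      exact (continuous_e'.tendsto _).comp ((hsum.hasSum.tendsto_sum_nat).const_mul T)
  obtain ⟨K₀, hK₀⟩ : ∃ K₀ : ℕ, F ⊆ range K₀ := F.exists_nat_subset_range
  refine le_of_tendsto hlim.norm ?_
  filter_upwards [eventually_ge_atTop K₀] with K hK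
  exact hpart K (hK₀.trans (range_subset_range.2 hK))

end Pool.Agent.Helper82.RB
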